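import Mathlib

/-!
# The spaces of ends of `ℤ^{*ℕ}` and `(ℤ²)^{*ℕ}` are homeomorphic

Both groups are put in bijection with `List ℕ` in such a way that the left commensurated subsets
correspond to the sets `A` of lists such that, for every `n`, the set of the lists `l` with exactly
one of `l`, `n :: l` in `A` is finite.
-/

set_option autoImplicit false

namespace Pool.Agent.Results.MP_3ac48a_al.EndsHomeomorphic

open scoped Pointwise symmDiff

/-- A subset `A` of `G` is left `G`-commensurated if `g A ∆ A` is finite for every `g`. -/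
def IsCommensurated (G : Type*) [Group G] (A : Set G) : Prop :=
  ∀ g : G, ((g • A) ∆ A).Finite

variable {G : Type*} [Group G]

theorem finite_smul_symmDiff_iff (g : G) (A : Set G) :
    ((g • A) ∆ A).Finite ↔ {x | ¬ (x ∈ A ↔ g * x ∈ A)}.Finite := by
  have h : (g • A) ∆ A = (g * ·) '' {x | ¬ (x ∈ A ↔ g * x ∈ A)} := by
    ext x
    simp only [Set.mem_symmDiff, Set.mem_smul_set_iff_inv_smul_mem, smul_eq_mul, Set.mem_image,
      Set.mem_ofPred_eq]
    constructor
    · intro h
      refine ⟨g⁻¹ * x, ?_, by simp⟩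
      rw [mul_inv_cancel_left]
      tauto
    · rintro ⟨y, hy, rfl⟩
      rw [inv_mul_cancel_left]
      tauto
  rw [h, Set.finite_image_iff (mul_right_injective g).injOn]

theorem diff_mul (A : Set G) (g h : G) (hg : {x | ¬ (x ∈ A ↔ g * x ∈ A)}.Finite)
    (hh : {x | ¬ (x ∈ A ↔ h * x ∈ A)}.Finite) : {x | ¬ (x ∈ A ↔ g * h * x ∈ A)}.Finite := by
  refine (hh.union (hg.preimage (f := (h * ·)) (mul_right_injective h).injOn)).subset ?_
  intro x hx
  simp only [Set.mem_union, Set.mem_ofPred_eq, Set.mem_preimage, ← mul_assoc] at hx ⊢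
  tauto

theorem diff_inv (A : Set G) (g : G) (hg : {x | ¬ (x ∈ A ↔ g * x ∈ A)}.Finite) :
    {x | ¬ (x ∈ A ↔ g⁻¹ * x ∈ A)}.Finite := by
  refine (hg.preimage (f := (g⁻¹ * ·)) (mul_right_injective g⁻¹).injOn).subset ?_
  intro x hx
  simp only [Set.mem_ofPred_eq, Set.mem_preimage, mul_inv_cancel_left] at hx ⊢
  tauto

theorem isCommensurated_iff (S : Set G) (hS : Subgroup.closure S = ⊤) (A : Set G) :
    IsCommensurated G A ↔ ∀ g ∈ S, {x | ¬ (x ∈ A ↔ g * x ∈ A)}.Finite := by
  constructor
  · intro h g _
    exact (finite_smul_symmDiff_iff g A).1 (h g)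
  · intro h g
    rw [finite_smul_symmDiff_iff]
    have hg : g ∈ Subgroup.closure S := by rw [hS]; trivial
    induction hg using Subgroup.closure_induction with
    | mem x hx => exact h x hx
    | one => simp
    | mul x y _ _ hx hy => exact diff_mul A x y hx hy
    | inv x _ hx => exact diff_inv A x hx

variable (G)

/-- The Boolean ring of the left commensurated subsets of `G`, a subring of the Boolean ring of all
subsets of `G` (the addition is the symmetric difference, the multiplication the intersection). -/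
def commensurated : Subring (AsBoolRing (Set G)) where
  carrier := {a | IsCommensurated G (ofBoolRing a)}
  zero_mem' := by
    intro g
    simp
  one_mem' := by
    intro g
    simp
  add_mem' := by
    intro a b ha hb g
    rw [finite_smul_symmDiff_iff]
    have h1 := (finite_smul_symmDiff_iff _ _).1 (ha g)
    have h2 := (finite_smul_symmDiff_iff _ _).1 (hb g)
    refine (h1.union h2).subset ?_
    intro x hx
    simp only [ofBoolRing_add, Set.mem_symmDiff, Set.mem_ofPred_eq, Set.mem_union] at hx ⊢
    tauto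
  mul_mem' := by
    intro a b ha hb g
    rw [finite_smul_symmDiff_iff]
    have h1 := (finite_smul_symmDiff_iff _ _).1 (ha g)
    have h2 := (finite_smul_symmDiff_iff _ _).1 (hb g)
    refine (h1.union h2).subset ?_
    intro x hx
    simp only [ofBoolRing_mul, Set.inf_eq_inter, Set.mem_inter_iff, Set.mem_ofPred_eq,
      Set.mem_union] at hx ⊢
    tauto
  neg_mem' := by
    intro a ha
    exact ha

/-- The ideal of the finite subsets. -/
def finiteIdeal : Ideal (commensurated G) where
  carrier := {a | (ofBoolRing a.1).Finite}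
  zero_mem' := by
    change (ofBoolRing (0 : AsBoolRing (Set G))).Finite
    simp
  add_mem' := by
    intro a b ha hb
    change (ofBoolRing (a.1 + b.1)).Finite
    rw [ofBoolRing_add]
    refine (Set.Finite.union ha hb).subset ?_
    exact symmDiff_le_sup
  smul_mem' := by
    intro c a ha
    change (ofBoolRing (c.1 * a.1)).Finite
    rw [ofBoolRing_mul]
    exact Set.Finite.subset ha inf_le_right

/-- The space of ends of `G`: the prime spectrum of the Boolean ring of the left commensurated
subsets modulo the finite ones. -/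
abbrev Ends : Type _ := PrimeSpectrum (commensurated G ⧸ finiteIdeal G)

variable {G}

/-- A bijection preserving commensurated subsets in both directions gives an isomorphism of the
Boolean rings. -/
def ringEquiv {H : Type*} [Group H] (β : G ≃ H)
    (hβ : ∀ A : Set H, IsCommensurated G (β ⁻¹' A) ↔ IsCommensurated H A) :
    commensurated H ≃+* commensurated G where
  toFun a := ⟨toBoolRing (β ⁻¹' (ofBoolRing a.1)), (hβ _).2 a.2⟩
  invFun a := ⟨toBoolRing (β.symm ⁻¹' (ofBoolRing a.1)), (hβ _).1 (by
    rw [ofBoolRing_toBoolRing, Equiv.preimage_symm_preimage]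
    exact a.2)⟩
  left_inv a := by
    apply Subtype.ext
    simp
  right_inv a := by
    apply Subtype.ext
    simp
  map_add' a b := rfl
  map_mul' a b := rfl

theorem homeo {H : Type*} [Group H] (β : G ≃ H)
    (hβ : ∀ A : Set H, IsCommensurated G (β ⁻¹' A) ↔ IsCommensurated H A) :
    Nonempty (Ends G ≃ₜ Ends H) := by
  refine ⟨PrimeSpectrum.homeomorphOfRingEquiv
    (Ideal.quotientEquiv (finiteIdeal G) (finiteIdeal H) (ringEquiv β hβ).symm ?_)⟩
  have h : finiteIdeal H = (finiteIdeal G).comap (ringEquiv β hβ) := by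
    ext a
    change (ofBoolRing a.1).Finite ↔ (β ⁻¹' (ofBoolRing a.1)).Finite
    refine ⟨fun h => h.preimage β.injective.injOn, fun h => ?_⟩
    rw [← Equiv.image_preimage β (ofBoolRing a.1)]
    exact h.image β
  rw [h]
  exact (Ideal.map_symm _).symm

/-- The condition on the subsets of `List ℕ` which corresponds to being commensurated. -/
def ModelComm (A : Set (List ℕ)) : Prop := ∀ n : ℕ, {l | ¬ (l ∈ A ↔ n :: l ∈ A)}.Finite

/-! ### The free group -/

/-- The code of a letter. -/
def code : ℕ × Bool ≃ ℕ := (Equiv.prodComm ℕ Bool).trans Equiv.boolProdNatEquivNat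

/-- The inverse letter. -/
def inv (a : ℕ × Bool) : ℕ × Bool := (a.1, !a.2)

theorem inv_inv' (a : ℕ × Bool) : inv (inv a) = a := by simp [inv]

/-- The letter to be put before the reduced word `w` for the number `n`. -/
def letter (n : ℕ) : List (ℕ × Bool) → ℕ × Bool
  | [] => code.symm n
  | t :: _ => code.symm (if n < code (inv t) then n else n + 1)

/-- The number of a letter to be put before the reduced word `w`. -/
def num (s : ℕ × Bool) : List (ℕ × Bool) → ℕ
  | [] => code s
  | t :: _ => if code s < code (inv t) then code s else code s - 1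

/-- From lists of numbers to reduced words. -/
def dec : List ℕ → List (ℕ × Bool)
  | [] => []
  | n :: l => letter n (dec l) :: dec l

/-- From reduced words to lists of numbers. -/
def enc : List (ℕ × Bool) → List ℕ
  | [] => []
  | s :: w => num s w :: enc w

theorem reduced_cons_cons (s t : ℕ × Bool) (w : List (ℕ × Bool)) :
    FreeGroup.IsReduced (s :: t :: w) ↔ s ≠ inv t ∧ FreeGroup.IsReduced (t :: w) := by
  rw [FreeGroup.IsReduced, List.isChain_cons_cons, ← FreeGroup.IsReduced]
  obtain ⟨a, b⟩ := s
  obtain ⟨c, d⟩ := t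
  simp only [inv, ne_eq, Prod.mk.injEq, not_and]
  cases b <;> cases d <;> simp

theorem num_letter (n : ℕ) (w : List (ℕ × Bool)) : num (letter n w) w = n := by
  cases w with
  | nil => simp [num, letter]
  | cons t w =>
    simp only [num, letter, Equiv.apply_symm_apply]
    split_ifs <;> omega

theorem letter_num (s : ℕ × Bool) (w : List (ℕ × Bool)) (h : FreeGroup.IsReduced (s :: w)) :
    letter (num s w) w = s := by
  cases w with
  | nil => simp [num, letter]
  | cons t w =>
    have h1 : code s ≠ code (inv t) := fun e =>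
      ((reduced_cons_cons s t w).1 h).1 (code.injective e)
    simp only [num, letter]
    rw [Equiv.symm_apply_eq]
    split_ifs <;> omega

theorem reduced_letter (n : ℕ) (w : List (ℕ × Bool)) (h : FreeGroup.IsReduced w) :
    FreeGroup.IsReduced (letter n w :: w) := by
  cases w with
  | nil => exact FreeGroup.IsReduced.singleton
  | cons t w =>
    refine (reduced_cons_cons _ t w).2 ⟨?_, h⟩
    intro e
    have e' := congrArg code e
    simp only [letter, Equiv.apply_symm_apply] at e'
    split_ifs at e' <;> omega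

theorem code_letter (n : ℕ) (w : List (ℕ × Bool)) :
    letter n w = code.symm n ∨ letter n w = code.symm (n + 1) := by
  cases w with
  | nil => exact Or.inl rfl
  | cons t w =>
    simp only [letter]
    split_ifs
    · exact Or.inl rfl
    · exact Or.inr rfl

theorem num_mem (s : ℕ × Bool) (w : List (ℕ × Bool)) : num s w = code s ∨ num s w = code s - 1 := by
  cases w with
  | nil => exact Or.inl rfl
  | cons t w =>
    simp only [num]
    split_ifs
    · exact Or.inl rfl
    · exact Or.inr rfl

theorem reduced_dec : ∀ l : List ℕ, FreeGroup.IsReduced (dec l)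
  | [] => FreeGroup.IsReduced.nil
  | n :: l => reduced_letter n (dec l) (reduced_dec l)

theorem enc_dec : ∀ l : List ℕ, enc (dec l) = l
  | [] => rfl
  | n :: l => by rw [dec, enc, num_letter, enc_dec l]

theorem dec_enc : ∀ w : List (ℕ × Bool), FreeGroup.IsReduced w → dec (enc w) = w
  | [], _ => rfl
  | s :: w, h => by
    have hw : FreeGroup.IsReduced w := List.IsChain.tail h
    rw [enc, dec, dec_enc w hw, letter_num s w h]

/-- The bijection of the free group with `List ℕ`. -/
def freeEquiv : FreeGroup ℕ ≃ List ℕ where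
  toFun x := enc x.toWord
  invFun l := FreeGroup.mk (dec l)
  left_inv x := by
    simp only
    rw [dec_enc _ FreeGroup.isReduced_toWord, FreeGroup.mk_toWord]
  right_inv l := by
    simp only
    rw [FreeGroup.toWord_mk, (reduced_dec l).reduce_eq, enc_dec]

theorem freeEquiv_symm_cons (n : ℕ) (l : List ℕ) :
    freeEquiv.symm (n :: l) = FreeGroup.mk [letter n (dec l)] * freeEquiv.symm l := by
  change FreeGroup.mk (dec (n :: l)) = _ * FreeGroup.mk (dec l)
  rw [FreeGroup.mul_mk]
  rfl

theorem free_comm_iff (A : Set (List ℕ)) :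
    IsCommensurated (FreeGroup ℕ) (freeEquiv ⁻¹' A) ↔ ModelComm A := by
  have hS : Subgroup.closure (Set.range fun s : ℕ × Bool => FreeGroup.mk [s]) = ⊤ := by
    rw [eq_top_iff, ← FreeGroup.closure_range_of]
    refine Subgroup.closure_mono ?_
    rintro _ ⟨a, rfl⟩
    exact ⟨(a, true), rfl⟩
  rw [isCommensurated_iff _ hS, Set.forall_mem_range]
  constructor
  · intro h n
    refine (((h (code.symm n)).union (h (code.symm (n + 1)))).preimage (f := freeEquiv.symm)
      freeEquiv.symm.injective.injOn).subset ?_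
    intro l hl
    have h1 : freeEquiv (FreeGroup.mk [letter n (dec l)] * freeEquiv.symm l) = n :: l := by
      rw [← freeEquiv_symm_cons, Equiv.apply_symm_apply]
    simp only [Set.mem_preimage, Set.mem_union, Set.mem_ofPred_eq, Equiv.apply_symm_apply] at hl ⊢
    rcases code_letter n (dec l) with e | e
    · left
      rw [← e, h1]
      exact hl
    · right
      rw [← e, h1]
      exact hl
  · intro h s
    let D : ℕ → Set (List ℕ) := fun n => {l | ¬ (l ∈ A ↔ n :: l ∈ A)}
    have hfin : (freeEquiv.symm '' (D (code s) ∪ D (code s - 1) ∪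
        ((fun l => code (inv s) :: l) '' D (code (inv s)) ∪
        (fun l => (code (inv s) - 1) :: l) '' D (code (inv s) - 1)))).Finite :=
      (((h _).union (h _)).union (((h _).image _).union ((h _).image _))).image _
    refine hfin.subset ?_
    intro x hx
    obtain ⟨l, rfl⟩ := freeEquiv.symm.surjective x
    refine ⟨l, ?_, rfl⟩
    simp only [Set.mem_preimage, Set.mem_ofPred_eq, Equiv.apply_symm_apply] at hx
    by_cases hr : FreeGroup.IsReduced (s :: dec l)
    · left
      have h1 : freeEquiv (FreeGroup.mk [s] * freeEquiv.symm l) = num s (dec l) :: l := by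
        rw [← Equiv.eq_symm_apply, freeEquiv_symm_cons, letter_num s _ hr]
      rw [h1] at hx
      rcases num_mem s (dec l) with e | e
      · left
        rw [e] at hx
        exact hx
      · right
        rw [e] at hx
        exact hx
    · right
      cases l with
      | nil => exact absurd FreeGroup.IsReduced.singleton hr
      | cons n l =>
        rw [dec, reduced_cons_cons] at hr
        have hs : s = inv (letter n (dec l)) := by
          by_contra hs
          exact hr ⟨hs, reduced_dec (n :: l)⟩
        have hs' : letter n (dec l) = inv s := by rw [hs, inv_inv']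
        have h1 : freeEquiv (FreeGroup.mk [s] * freeEquiv.symm (n :: l)) = l := by
          rw [← Equiv.eq_symm_apply, freeEquiv_symm_cons, hs', ← mul_assoc]
          have : FreeGroup.mk [s] * FreeGroup.mk [inv s] = 1 := by
            rw [show FreeGroup.mk [inv s] = (FreeGroup.mk [s])⁻¹ from by
              rw [FreeGroup.inv_mk]; rfl]
            exact mul_inv_cancel _
          rw [this, one_mul]
        rw [h1] at hx
        have hn : n = num (inv s) (dec l) := by rw [← hs', num_letter]
        have hx' : ¬ (l ∈ A ↔ n :: l ∈ A) := fun e => hx e.symm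
        rcases num_mem (inv s) (dec l) with e | e
        · left
          rw [e] at hn
          exact ⟨l, hn ▸ hx', by rw [hn]⟩
        · right
          rw [e] at hn
          exact ⟨l, hn ▸ hx', by rw [hn]⟩

/-! ### Functions `H × Q → Prop` -/

section fibres

variable {H Q : Type*}

/-- `A` is trivial in all but finitely many fibres, and finite or cofinite in every fibre. -/
def Good (A : Set (H × Q)) : Prop :=
  {t | (∃ h, (h, t) ∈ A) ∧ ∃ h, (h, t) ∉ A}.Finite ∧
    ∀ t, {h | (h, t) ∈ A}.Finite ∨ {h | (h, t) ∉ A}.Finite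

theorem Good.finite {A : Set (H × Q)} (hA : Good A) (f : H → H) (hf : Function.Injective f) :
    {p : H × Q | ¬ (p ∈ A ↔ (f p.1, p.2) ∈ A)}.Finite := by
  have h : ∀ t, {h : H | ¬ ((h, t) ∈ A ↔ (f h, t) ∈ A)}.Finite := by
    intro t
    rcases hA.2 t with ht | ht
    · refine (ht.union (ht.preimage hf.injOn)).subset ?_
      intro h hh
      simp only [Set.mem_ofPred_eq, Set.mem_union, Set.mem_preimage] at hh ⊢
      tauto
    · refine (ht.union (ht.preimage hf.injOn)).subset ?_
      intro h hh
      simp only [Set.mem_ofPred_eq, Set.mem_union, Set.mem_preimage] at hh ⊢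
      tauto
  refine (Set.Finite.biUnion hA.1 fun t _ => (h t).image fun h => (h, t)).subset ?_
  rintro ⟨h', t⟩ ht
  simp only [Set.mem_ofPred_eq] at ht
  simp only [Set.mem_iUnion, Set.mem_image, Set.mem_ofPred_eq, Prod.mk.injEq]
  refine ⟨t, ?_, h', ht, rfl, rfl⟩
  by_cases h1 : (h', t) ∈ A
  · exact ⟨⟨h', h1⟩, f h', by tauto⟩
  · exact ⟨⟨f h', by tauto⟩, h', h1⟩

/-- The case of a single permutation-like map given by the successor of `ℕ`. -/
theorem good_of_succ (ν : H ≃ ℕ) (A : Set (H × Q))
    (hA : {p : H × Q | ¬ (p ∈ A ↔ (ν.symm (ν p.1 + 1), p.2) ∈ A)}.Finite) : Good A := by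
  have step : ∀ t a b, a ≤ b → (∀ n, a ≤ n → n < b →
      ((ν.symm n, t) ∈ A ↔ (ν.symm (n + 1), t) ∈ A)) →
      ((ν.symm a, t) ∈ A ↔ (ν.symm b, t) ∈ A) := by
    intro t a b hab
    induction b, hab using Nat.le_induction with
    | base => intro _; rfl
    | succ b hab ih =>
      intro h
      exact (ih fun n h1 h2 => h n h1 (by omega)).trans (h b hab (by omega))
  constructor
  · refine (hA.image Prod.snd).subset ?_
    rintro t ⟨⟨h, hh⟩, h', hh'⟩
    by_contra hcon
    have hn : ∀ n, ((ν.symm n, t) ∈ A ↔ (ν.symm (n + 1), t) ∈ A) := by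
      intro n
      by_contra hn
      exact hcon ⟨(ν.symm n, t), by simpa using hn, rfl⟩
    have e1 := step t 0 (ν h) (Nat.zero_le _) fun n _ _ => hn n
    have e2 := step t 0 (ν h') (Nat.zero_le _) fun n _ _ => hn n
    rw [Equiv.symm_apply_apply] at e1 e2
    tauto
  · intro t
    have hfin : {n : ℕ | ¬ ((ν.symm n, t) ∈ A ↔ (ν.symm (n + 1), t) ∈ A)}.Finite := by
      refine (hA.preimage (f := fun n : ℕ => (ν.symm n, t)) ?_).subset ?_
      · intro a _ b _ hab
        exact ν.symm.injective (Prod.mk.inj hab).1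
      · intro n hn
        simpa using hn
    obtain ⟨N, hN⟩ := hfin.bddAbove
    have hc : ∀ n, N + 1 ≤ n → ((ν.symm (N + 1), t) ∈ A ↔ (ν.symm n, t) ∈ A) := by
      intro n hn
      refine step t _ n hn fun m h1 h2 => ?_
      by_contra hm
      have := hN hm
      omega
    by_cases h1 : (ν.symm (N + 1), t) ∈ A
    · right
      refine ((Set.finite_lt_nat (N + 1)).preimage (f := ν) ν.injective.injOn).subset ?_
      intro h hh
      by_contra hlt
      simp only [Set.mem_preimage, Set.mem_ofPred_eq, not_lt] at hlt hh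
      have := (hc _ hlt).1 h1
      rw [Equiv.symm_apply_apply] at this
      exact hh this
    · left
      refine ((Set.finite_lt_nat (N + 1)).preimage (f := ν) ν.injective.injOn).subset ?_
      intro h hh
      by_contra hlt
      simp only [Set.mem_preimage, Set.mem_ofPred_eq, not_lt] at hlt hh
      rw [← Equiv.symm_apply_apply ν h] at hh
      exact h1 ((hc _ hlt).2 hh)

/-- The case of `ℤ²` (which has one end). -/
theorem good_of_int (A : Set ((ℤ × ℤ) × Q))
    (h1 : {p : (ℤ × ℤ) × Q | ¬ (p ∈ A ↔ ((p.1.1 + 1, p.1.2), p.2) ∈ A)}.Finite)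
    (h2 : {p : (ℤ × ℤ) × Q | ¬ (p ∈ A ↔ ((p.1.1, p.1.2 + 1), p.2) ∈ A)}.Finite) : Good A := by
  -- a line without a change
  have line : ∀ P : ℤ → Prop, (∀ n, P n ↔ P (n + 1)) → ∀ m n, P m ↔ P n := by
    intro P hP
    have h0 : ∀ n, P 0 ↔ P n := by
      intro n
      induction n using Int.induction_on with
      | zero => rfl
      | succ n ih => rw [ih, hP]
      | pred n ih => rw [ih, hP (-n - 1)]; simp
    exact fun m n => (h0 m).symm.trans (h0 n)
  constructor
  · refine ((h1.union h2).image Prod.snd).subset ?_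
    rintro t ⟨⟨h, hh⟩, h', hh'⟩
    by_contra hcon
    have c1 : ∀ x y, (((x, y), t) ∈ A ↔ ((x + 1, y), t) ∈ A) := by
      intro x y
      by_contra hn
      exact hcon ⟨((x, y), t), Or.inl hn, rfl⟩
    have c2 : ∀ x y, (((x, y), t) ∈ A ↔ ((x, y + 1), t) ∈ A) := by
      intro x y
      by_contra hn
      exact hcon ⟨((x, y), t), Or.inr hn, rfl⟩
    have e : ((h.1, h.2), t) ∈ A ↔ ((h'.1, h'.2), t) ∈ A :=
      (line (fun x => ((x, h.2), t) ∈ A) (fun x => c1 x h.2) h.1 h'.1).trans
        (line (fun y => ((h'.1, y), t) ∈ A) (fun y => c2 h'.1 y) h.2 h'.2)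
    exact hh' (e.1 hh)
  · intro t
    have hinj : Function.Injective (fun h : ℤ × ℤ => (h, t)) := fun a b hab => (Prod.mk.inj hab).1
    have f1 := h1.preimage (f := fun h : ℤ × ℤ => (h, t)) hinj.injOn
    have f2 := h2.preimage (f := fun h : ℤ × ℤ => (h, t)) hinj.injOn
    obtain ⟨N, hN⟩ : ∃ N : ℤ, ∀ h : ℤ × ℤ, (N < |h.1| ∨ N < |h.2|) →
        ((h, t) ∈ A ↔ ((h.1 + 1, h.2), t) ∈ A) ∧ ((h, t) ∈ A ↔ ((h.1, h.2 + 1), t) ∈ A) := by
      obtain ⟨N1, hN1⟩ := ((f1.union f2).image fun h : ℤ × ℤ => |h.1|).bddAbove
      obtain ⟨N2, hN2⟩ := ((f1.union f2).image fun h : ℤ × ℤ => |h.2|).bddAbove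
      refine ⟨max N1 N2, fun h hh => ?_⟩
      have hn : h ∉ ((fun h : ℤ × ℤ => (h, t)) ⁻¹' {p : (ℤ × ℤ) × Q | ¬ (p ∈ A ↔
          ((p.1.1 + 1, p.1.2), p.2) ∈ A)}) ∪ ((fun h : ℤ × ℤ => (h, t)) ⁻¹' {p : (ℤ × ℤ) × Q |
          ¬ (p ∈ A ↔ ((p.1.1, p.1.2 + 1), p.2) ∈ A)}) := by
        intro hmem
        have b1 := hN1 ⟨h, hmem, rfl⟩
        have b2 := hN2 ⟨h, hmem, rfl⟩
        simp only at b1 b2
        rcases hh with hh | hh
        · exact absurd (lt_of_le_of_lt (le_max_left N1 N2) hh) (not_lt.2 b1)
        · exact absurd (lt_of_le_of_lt (le_max_right N1 N2) hh) (not_lt.2 b2)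
      simp only [Set.mem_union, Set.mem_preimage, Set.mem_ofPred_eq, not_or, not_not] at hn
      exact hn
    have row : ∀ y, N < |y| → ∀ x x', ((x, y), t) ∈ A ↔ ((x', y), t) ∈ A := fun y hy =>
      line (fun x => ((x, y), t) ∈ A) fun x => (hN (x, y) (Or.inr hy)).1
    have col : ∀ x, N < |x| → ∀ y y', ((x, y), t) ∈ A ↔ ((x, y'), t) ∈ A := fun x hx =>
      line (fun y => ((x, y), t) ∈ A) fun y => (hN (x, y) (Or.inl hx)).2
    have hN1 : N < |(|N| + 1)| := by
      have := le_abs_self N
      have h0 := abs_nonneg N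
      rw [abs_of_nonneg (by omega)]
      omega
    have hc : ∀ h : ℤ × ℤ, (N < |h.1| ∨ N < |h.2|) →
        ((h, t) ∈ A ↔ ((|N| + 1, |N| + 1), t) ∈ A) := by
      rintro ⟨x, y⟩ (h | h)
      · exact (col x h y (|N| + 1)).trans (row _ hN1 x _)
      · exact (row y h x (|N| + 1)).trans (col _ hN1 y _)
    have hbox : {h : ℤ × ℤ | ¬ (N < |h.1| ∨ N < |h.2|)}.Finite := by
      refine ((Set.finite_Icc (-N) N).prod (Set.finite_Icc (-N) N)).subset ?_
      rintro ⟨x, y⟩ h
      simp only [Set.mem_ofPred_eq, not_or, not_lt] at h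
      exact ⟨⟨by linarith [neg_abs_le x, h.1], (le_abs_self x).trans h.1⟩,
        ⟨by linarith [neg_abs_le y, h.2], (le_abs_self y).trans h.2⟩⟩
    by_cases h1 : ((|N| + 1, |N| + 1), t) ∈ A
    · right
      refine hbox.subset ?_
      intro h hh hcon
      exact hh ((hc h hcon).2 h1)
    · left
      refine hbox.subset ?_
      intro h hh hcon
      exact h1 ((hc h hcon).1 hh)

end fibres

theorem transport {X Y : Type*} (e : X ≃ Y) (f : X → X) (g : Y → Y) (h : ∀ x, e (f x) = g (e x))
    (C : Set Y) : {x | ¬ (e x ∈ C ↔ e (f x) ∈ C)}.Finite ↔ {y | ¬ (y ∈ C ↔ g y ∈ C)}.Finite := by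
  have heq : {x | ¬ (e x ∈ C ↔ e (f x) ∈ C)} = e ⁻¹' {y | ¬ (y ∈ C ↔ g y ∈ C)} := by
    ext x
    simp only [Set.mem_ofPred_eq, Set.mem_preimage, h]
  rw [heq]
  refine ⟨fun hf => ?_, fun hf => hf.preimage e.injective.injOn⟩
  rw [← Equiv.image_preimage e {y | ¬ (y ∈ C ↔ g y ∈ C)}]
  exact hf.image e

/-! ### The free product -/

section freeProduct

open Monoid Monoid.CoprodI

/-- The family of groups. -/
abbrev M : ℕ → Type := fun _ => Multiplicative (ℤ × ℤ)

/-- A bijection `ℤ² ≃ ℕ` with `0 ↦ 0`. -/
noncomputable def ν : Multiplicative (ℤ × ℤ) ≃ ℕ :=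
  let e : Multiplicative (ℤ × ℤ) ≃ ℕ := Multiplicative.toAdd.trans (Denumerable.eqv (ℤ × ℤ))
  e.trans (Equiv.swap (e 1) 0)

theorem ν_one : ν 1 = 0 := by
  simp only [ν, Equiv.trans_apply]
  exact Equiv.swap_apply_left _ _

theorem ν_symm_zero : ν.symm 0 = 1 := by rw [Equiv.symm_apply_eq, ν_one]

/-- The successor in the component `i`. -/
noncomputable def incr (i : ℕ) (w : Word M) : Word M :=
  Word.rcons { Word.equivPair i w with head := ν.symm (ν (Word.equivPair i w).head + 1) }

/-- From lists of numbers to reduced words. -/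
noncomputable def decW : List ℕ → Word M
  | [] => Word.empty
  | i :: l => incr i (decW l)

/-- From reduced words to lists of numbers (run-length encoding). -/
noncomputable def encW (w : Word M) : List ℕ :=
  w.toList.flatMap fun p => List.replicate (ν p.2) p.1

theorem encW_rcons {i : ℕ} (p : Word.Pair M i) :
    encW (Word.rcons p) = List.replicate (ν p.head) i ++ encW p.tail := by
  rw [Word.rcons]
  split_ifs with h
  · rw [h, ν_one]
    rfl
  · rfl

theorem encW_incr (i : ℕ) (w : Word M) : encW (incr i w) = i :: encW w := by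
  have h : encW w = List.replicate (ν (Word.equivPair i w).head) i ++
      encW (Word.equivPair i w).tail := by
    rw [← encW_rcons, ← Word.equivPair_symm, Equiv.symm_apply_apply]
  rw [incr, encW_rcons, h]
  simp only [Equiv.apply_symm_apply, List.replicate_succ, List.cons_append]

theorem encW_decW : ∀ l : List ℕ, encW (decW l) = l
  | [] => rfl
  | i :: l => by rw [decW, encW_incr, encW_decW l]

theorem decW_surjective : Function.Surjective decW := by
  intro w
  induction w using Word.consRecOn with
  | empty => exact ⟨[], rfl⟩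
  | cons i m w h1 h2 ih =>
    obtain ⟨l, rfl⟩ := ih
    have key : ∀ n : ℕ, decW (List.replicate n i ++ l) =
        Word.rcons (M := M) (i := i) ⟨ν.symm n, decW l, h1⟩ := by
      intro n
      induction n with
      | zero => simp [Word.rcons, ν_symm_zero]
      | succ n ih =>
        have hp : Word.equivPair i (Word.rcons (M := M) (i := i) ⟨ν.symm n, decW l, h1⟩) =
            ⟨ν.symm n, decW l, h1⟩ := by
          rw [← Word.equivPair_symm, Equiv.apply_symm_apply]
        rw [List.replicate_succ, List.cons_append, decW, ih, incr]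
        refine congrArg Word.rcons (Word.Pair.ext ?_ ?_)
        · change ν.symm (ν (Word.equivPair i (Word.rcons (M := M) (i := i)
            ⟨ν.symm n, decW l, h1⟩)).head + 1) = ν.symm (n + 1)
          rw [hp, Equiv.apply_symm_apply]
        · change (Word.equivPair i (Word.rcons (M := M) (i := i)
            ⟨ν.symm n, decW l, h1⟩)).tail = decW l
          rw [hp]
    refine ⟨List.replicate (ν m) i ++ l, ?_⟩
    rw [key, Word.rcons, dif_neg]
    · simp
    · simpa using h2

/-- The bijection of `List ℕ` with the reduced words. -/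
noncomputable def wordEquiv : List ℕ ≃ Word M :=
  Equiv.ofBijective decW ⟨Function.LeftInverse.injective encW_decW, decW_surjective⟩

/-- The bijection of the free product with `List ℕ`. -/
noncomputable def prodEquiv : CoprodI M ≃ List ℕ := Word.equiv.trans wordEquiv.symm

/-- The decomposition of the set of the reduced words. -/
noncomputable def pairEquiv (i : ℕ) :
    Word M ≃ Multiplicative (ℤ × ℤ) × {w : Word M // w.fstIdx ≠ some i} :=
  (Word.equivPair i).trans
    { toFun := fun p => (p.head, ⟨p.tail, p.fstIdx_ne⟩)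
      invFun := fun p => ⟨p.1, p.2.1, p.2.2⟩
      left_inv := fun _ => rfl
      right_inv := fun _ => rfl }

theorem pairEquiv_incr (i : ℕ) (w : Word M) :
    pairEquiv i (incr i w) = (ν.symm (ν (pairEquiv i w).1 + 1), (pairEquiv i w).2) := by
  rw [incr, ← Word.equivPair_symm, pairEquiv, Equiv.trans_apply, Equiv.apply_symm_apply]
  rfl

theorem pairEquiv_smul (i : ℕ) (m : M i) (w : Word M) :
    pairEquiv i (of m • w) = (m * (pairEquiv i w).1, (pairEquiv i w).2) := by
  rw [pairEquiv, Equiv.trans_apply, Word.equivPair_smul_same]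
  rfl

theorem closure_of :
    Subgroup.closure (Set.range fun p : Σ i, M i => (of p.2 : CoprodI M)) = ⊤ := by
  rw [eq_top_iff]
  intro x _
  induction x using CoprodI.induction_on with
  | one => exact one_mem _
  | of i m => exact Subgroup.subset_closure ⟨⟨i, m⟩, rfl⟩
  | mul x y hx hy => exact mul_mem (hx trivial) (hy trivial)

theorem prod_comm_iff (A : Set (List ℕ)) :
    IsCommensurated (CoprodI M) (prodEquiv ⁻¹' A) ↔ ModelComm A := by
  rw [isCommensurated_iff _ closure_of, Set.forall_mem_range]
  let B : Set (Word M) := wordEquiv.symm ⁻¹' A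
  have h1 : ModelComm A ↔ ∀ i, {w | ¬ (w ∈ B ↔ incr i w ∈ B)}.Finite := by
    refine forall_congr' fun i => ?_
    rw [← transport wordEquiv (fun l => i :: l) (incr i) (fun l => rfl) B]
    simp only [B, Set.mem_preimage, Equiv.symm_apply_apply]
  have h2 : (∀ p : Σ i, M i, {x : CoprodI M | ¬ (x ∈ prodEquiv ⁻¹' A ↔
      of p.2 * x ∈ prodEquiv ⁻¹' A)}.Finite) ↔
      ∀ i, ∀ m : M i, {w | ¬ (w ∈ B ↔ of m • w ∈ B)}.Finite := by
    rw [Sigma.forall]
    refine forall_congr' fun i => forall_congr' fun m => ?_
    rw [← transport Word.equiv (fun x => of m * x) (fun w => of m • w)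
      (fun x => by
        change (of (M := M) m * x) • (Word.empty : Word M) = of (M := M) m • x • Word.empty
        rw [mul_smul]) B]
    rfl
  rw [h1, h2]
  refine forall_congr' fun i => ?_
  let C : Set (Multiplicative (ℤ × ℤ) × {w : Word M // w.fstIdx ≠ some i}) :=
    (pairEquiv i).symm ⁻¹' B
  have h3 : {w | ¬ (w ∈ B ↔ incr i w ∈ B)}.Finite ↔
      {p | ¬ (p ∈ C ↔ (ν.symm (ν p.1 + 1), p.2) ∈ C)}.Finite := by
    rw [← transport (pairEquiv i) (incr i) (fun p => (ν.symm (ν p.1 + 1), p.2))
      (pairEquiv_incr i) C]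
    simp only [C, Set.mem_preimage, Equiv.symm_apply_apply]
  have h4 : ∀ m : M i, {w | ¬ (w ∈ B ↔ of m • w ∈ B)}.Finite ↔
      {p | ¬ (p ∈ C ↔ (m * p.1, p.2) ∈ C)}.Finite := by
    intro m
    rw [← transport (pairEquiv i) (fun w => of m • w) (fun p => (m * p.1, p.2))
      (pairEquiv_smul i m) C]
    simp only [C, Set.mem_preimage, Equiv.symm_apply_apply]
  rw [h3]
  simp only [h4]
  constructor
  · intro h
    have hg : Good C := by
      have e1 := h (Multiplicative.ofAdd (1, 0))
      have e2 := h (Multiplicative.ofAdd (0, 1))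
      refine good_of_int C ?_ ?_
      · refine e1.subset ?_
        rintro ⟨⟨x, y⟩, t⟩ hp hcon
        apply hp
        have : Multiplicative.ofAdd ((1, 0) : ℤ × ℤ) * Multiplicative.ofAdd (x, y) =
            Multiplicative.ofAdd (x + 1, y) := by
          rw [← ofAdd_add]
          simp [add_comm]
        change _ ↔ (Multiplicative.ofAdd ((1, 0) : ℤ × ℤ) * Multiplicative.ofAdd (x, y), t) ∈ C
          at hcon
        rw [this] at hcon
        exact hcon
      · refine e2.subset ?_
        rintro ⟨⟨x, y⟩, t⟩ hp hcon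
        apply hp
        have : Multiplicative.ofAdd ((0, 1) : ℤ × ℤ) * Multiplicative.ofAdd (x, y) =
            Multiplicative.ofAdd (x, y + 1) := by
          rw [← ofAdd_add]
          simp [add_comm]
        change _ ↔ (Multiplicative.ofAdd ((0, 1) : ℤ × ℤ) * Multiplicative.ofAdd (x, y), t) ∈ C
          at hcon
        rw [this] at hcon
        exact hcon
    exact hg.finite (fun h => ν.symm (ν h + 1)) fun a b hab =>
      ν.injective (Nat.succ.inj (ν.symm.injective hab))
  · intro h m
    exact (good_of_succ ν C h).finite (fun h => m * h) (mul_right_injective m)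

end freeProduct

/-- **The spaces of ends of `ℤ^{*ℕ}` and of `(ℤ²)^{*ℕ}` are homeomorphic.** -/
theorem result : Nonempty (Ends (FreeGroup ℕ) ≃ₜ
    Ends (Monoid.CoprodI fun _ : ℕ => Multiplicative (ℤ × ℤ))) := by
  refine homeo (freeEquiv.trans prodEquiv.symm) fun A => ?_
  have h : (freeEquiv.trans prodEquiv.symm) ⁻¹' A = freeEquiv ⁻¹' (prodEquiv.symm ⁻¹' A) := rfl
  rw [h, free_comm_iff, ← prod_comm_iff, Equiv.preimage_symm_preimage]

end Pool.Agent.Results.MP_3ac48a_al.EndsHomeomorphic
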